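import Pool.Agent.Helper47.M.Defs

/-!
# Theorem M, block K: intersections of fields generated by independent elements
-/

set_option autoImplicit false

namespace Pool.Agent.Helper57.M

open MvPolynomial Pool.Agent.Helper47.M

theorem adjoin_inf {K E ι : Type} [Field K] [Field E] [Algebra K E] (v : ι → E)
    (hv : AlgebraicIndependent K v) (A B : Set ι) (y : E)
    (hA : y ∈ IntermediateField.adjoin K (v '' A)) (hB : y ∈ IntermediateField.adjoin K (v '' B)) :
    y ∈ IntermediateField.adjoin K (v '' (A ∩ B)) := by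
  classical
  set F := IntermediateField.adjoin K (v '' (A ∩ B)) with hF
  set L := IntermediateField.adjoin K (v '' B) with hL
  have hFL : F ≤ L := IntermediateField.adjoin.mono K _ _ (Set.image_mono Set.inter_subset_right)
  have hind : AlgebraicIndependent L (fun i : (Bᶜ : Set ι) => v i) := by
    rw [hL, IntermediateField.algebraicIndependent_adjoin_iff]
    exact ((AlgebraicIndependent.iff_adjoin_image (R := K) (x := v) B).1 hv).2
  have hAr : v '' A = Set.range (fun a : A => v a) := by
    ext z; simp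
  rw [hAr, IntermediateField.mem_adjoin_range_iff] at hA
  obtain ⟨r, s, hrs⟩ := hA
  by_cases hs : aeval (fun a : A => v a) s = 0
  · rw [hrs, hs, div_zero]
    exact F.zero_mem
  have hmem : ∀ a : A, (a : ι) ∈ B → v a ∈ F := fun a ha =>
    IntermediateField.subset_adjoin K _ ⟨a, ⟨a.2, ha⟩, rfl⟩
  let φ : MvPolynomial A K →ₐ[K] MvPolynomial (Bᶜ : Set ι) F :=
    aeval (fun a : A => if h : (a : ι) ∈ B then C ⟨v a, hmem a h⟩ else X ⟨a, h⟩)
  let j : F →ₐ[K] L := IntermediateField.inclusion hFL
  have hφ : ∀ p : MvPolynomial A K,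
      aeval (fun i : (Bᶜ : Set ι) => v i) (map (j : F →+* L) (φ p)) = aeval (fun a : A => v a) p := by
    intro p
    induction p using MvPolynomial.induction_on with
    | C a =>
      simp only [φ, MvPolynomial.algHom_C]
      rw [IsScalarTower.algebraMap_apply K F (MvPolynomial (Bᶜ : Set ι) F), MvPolynomial.algebraMap_eq,
        map_C, aeval_C]
      rfl
    | add p q hp hq => simp only [map_add, hp, hq]
    | mul_X p a hp =>
      simp only [map_mul, hp]
      congr 1
      simp only [φ, aeval_X]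
      by_cases h : (a : ι) ∈ B
      · rw [dif_pos h, map_C, aeval_C]
        rfl
      · rw [dif_neg h, map_X, aeval_X]
  have hzero : map (j : F →+* L) (φ r) - C (⟨y, hB⟩ : L) * map (j : F →+* L) (φ s) = 0 := by
    apply (injective_iff_map_eq_zero _).1 hind
    rw [map_sub, map_mul, hφ, hφ, aeval_C]
    have h1 : algebraMap L E (⟨y, hB⟩ : L) = y := rfl
    rw [h1, hrs, div_mul_cancel₀ _ hs, sub_self]
  have hs' : φ s ≠ 0 := by
    intro h
    apply hs
    rw [← hφ s, h, map_zero, map_zero]
  obtain ⟨m, hm⟩ := MvPolynomial.ne_zero_iff.1 hs'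
  have hco := congrArg (MvPolynomial.coeff m) hzero
  rw [coeff_sub, coeff_C_mul, coeff_map, coeff_map, coeff_zero, sub_eq_zero] at hco
  have hco' : ((coeff m (φ r) : F) : E) = y * ((coeff m (φ s) : F) : E) := congrArg Subtype.val hco
  have hne : ((coeff m (φ s) : F) : E) ≠ 0 := by
    intro h
    exact hm (Subtype.ext h)
  have hy : y = ((coeff m (φ r) : F) : E) / ((coeff m (φ s) : F) : E) := by
    rw [hco', mul_div_cancel_right₀ _ hne]
  rw [hy]
  exact F.div_mem (coeff m (φ r)).2 (coeff m (φ s)).2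

variable {k l : ℕ} {N : Fin k → ℕ} {d : Fin l → Fin k → ℕ}
variable {K E : Type} [Field K] [Field E] [Algebra K E]

theorem bf_eq (x : Pt N E) (hone : ∀ j, x j 0 = 1) (r : Fin k) (J : Set (Fin k)) (h : r ∈ J) :
    Bf K x J = IntermediateField.adjoin K
      ((fun q : {q : Vr N // q.1 ≠ r} => x q.1.1 q.1.2.succ) '' {q | q.1.1 ∉ J}) := by
  apply le_antisymm
  · rw [Bf, IntermediateField.adjoin_le_iff]
    rintro _ ⟨j, hj, e, rfl⟩
    refine Fin.cases ?_ (fun i => ?_) e
    · rw [hone j]
      exact one_mem _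
    · refine IntermediateField.subset_adjoin K _ ⟨⟨⟨j, i⟩, ?_⟩, hj, rfl⟩
      rintro rfl
      exact hj h
  · rw [IntermediateField.adjoin_le_iff]
    rintro _ ⟨q, hq, rfl⟩
    exact IntermediateField.subset_adjoin K _ ⟨q.1.1, hq, q.1.2.succ, rfl⟩

theorem bf_inf (c : Tx N d → K) (x : Pt N E) (hx : FullPt K c x) (r : Fin k) (J J' : Set (Fin k))
    (h : r ∈ J) (h' : r ∈ J') (y : E) (h1 : y ∈ Bf K x J) (h2 : y ∈ Bf K x J') :
    y ∈ Bf K x (J ∪ J') := by
  rw [bf_eq x hx.one r J h] at h1
  rw [bf_eq x hx.one r J' h'] at h2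
  rw [bf_eq x hx.one r (J ∪ J') (Or.inl h)]
  have h3 := adjoin_inf _ (hx.ind r) _ _ y h1 h2
  refine IntermediateField.adjoin.mono K _ _ (Set.image_mono ?_) h3
  rintro q ⟨hq1, hq2⟩ hq
  rcases hq with hq | hq
  · exact hq1 hq
  · exact hq2 hq

end Pool.Agent.Helper57.M
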